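import Mathlib
import Pool.Agent.Lib.MP_1818ed_co.Aff.Defs
import Pool.Agent.Lib.MP_1818ed_co.Aff.Lose
import Pool.Agent.Lib.MP_1818ed_co.Aff.Shift

/-!
# Chromatic number and hat guessing number: affine and triangular strategies

If the fractional chromatic number of a finite graph is at most the number of prime factors of `q`
(with multiplicity) then no affine, more generally no triangular, strategy with `q` colours wins;
and there are graphs of fractional chromatic number at most `3` and arbitrarily large chromatic
number (triple shift graphs).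
-/

set_option autoImplicit false

namespace Pool.Agent.Results.MP_1818ed_co.AffineStrategies

open Pool.Agent.Lib.MP_1818ed_co.Aff

theorem result :
    (∀ (V : Type) [Finite V] (G : SimpleGraph V) (h s : ℕ) (W : Fin s → Type)
      [∀ j, AddCommGroup (W j)] [∀ j, Finite (W j)]
      (f : V → (V → (j : Fin s) → W j) → (j : Fin s) → W j),
      FracColorable G h → h ≤ ArithmeticFunction.cardFactors (∏ j, Nat.card (W j)) →
      Triangular G s W f → ∃ c : V → (j : Fin s) → W j, ∀ v : V, f v c ≠ c v) ∧
    ∀ K : ℕ, ∃ (V : Type) (_ : Finite V) (G : SimpleGraph V), ¬ G.Colorable K ∧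
      FracColorable G 3 ∧
      ∀ (s : ℕ) (W : Fin s → Type) [∀ j, AddCommGroup (W j)] [∀ j, Finite (W j)]
        (f : V → (V → (j : Fin s) → W j) → (j : Fin s) → W j),
        3 ≤ ArithmeticFunction.cardFactors (∏ j, Nat.card (W j)) → Triangular G s W f →
        ∃ c : V → (j : Fin s) → W j, ∀ v : V, f v c ≠ c v := by
  have hA : ∀ (V : Type) [Finite V] (G : SimpleGraph V) (h s : ℕ) (W : Fin s → Type)
      [∀ j, AddCommGroup (W j)] [∀ j, Finite (W j)]
      (f : V → (V → (j : Fin s) → W j) → (j : Fin s) → W j),
      FracColorable G h → h ≤ ArithmeticFunction.cardFactors (∏ j, Nat.card (W j)) →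
      Triangular G s W f → ∃ c : V → (j : Fin s) → W j, ∀ v : V, f v c ≠ c v := by
    intro V _ G h s W _ _ f hG hh hf
    refine lose G h s W hG ?_ f hf
    rwa [Nat.card_pi]
  refine ⟨hA, fun K => ⟨Tr3 (2 ^ 2 ^ K + 1), inferInstance, shiftGraph (2 ^ 2 ^ K + 1),
    not_colorable K, fracColorable _, ?_⟩⟩
  intro s W _ _ f hq hf
  exact hA _ _ 3 s W f (fracColorable _) hq hf

end Pool.Agent.Results.MP_1818ed_co.AffineStrategies
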