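import Mathlib
import Pool.Agent.Lib.MP_1818ed_co.C4.Main

/-!
# Chromatic number and hat guessing number of clique blow-ups of graphs without 4-cycles

Let `G` be a finite graph in which two distinct vertices have at most one common neighbour
(triangles are allowed). For all sufficiently large `s` the clique blow-up `B = G[K_s]` satisfies
`χ(B) ≤ HG(B)`: for every `q` either there is a winning strategy with `q` colours on `B` or `B` is
`(q-1)`-colourable.
-/

set_option autoImplicit false

namespace Pool.Agent.Results.MP_1818ed_co.BlowupC4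

open Pool.Agent.Lib.MP_1818ed_co

theorem result :
    ∀ (V : Type) [Fintype V] (G : SimpleGraph V),
      (∀ u v x y : V, u ≠ v → G.Adj u x → G.Adj v x → G.Adj u y → G.Adj v y → x = y) →
      ∃ s₀ : ℕ, ∀ s : ℕ, s₀ ≤ s → ∀ B : SimpleGraph (V × Fin s),
        (∀ x y : V × Fin s, B.Adj x y ↔ (G.Adj x.1 y.1 ∨ (x.1 = y.1 ∧ x.2 ≠ y.2))) →
        ∀ q : ℕ,
          (¬ ∃ f : V × Fin s → (V × Fin s → Fin q) → Fin q,
            (∀ (v : V × Fin s) (c c' : V × Fin s → Fin q),
              (∀ u : V × Fin s, B.Adj v u → c u = c' u) → f v c = f v c') ∧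
            ∀ c : V × Fin s → Fin q, ∃ v : V × Fin s, f v c = c v) →
          B.Colorable (q - 1) := by
  intro V _ G hC4
  obtain ⟨s₀, h⟩ := C4.main G hC4
  refine ⟨s₀, fun s hs B hB q hq => ?_⟩
  have hBe : B = C4.blow G s := by
    ext x y
    exact hB x y
  subst hBe
  exact h s hs q hq

end Pool.Agent.Results.MP_1818ed_co.BlowupC4
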