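import Mathlib
import Pool.Agent.Lib.MP_1818ed_co.Basic
import Pool.Agent.Lib.MP_1818ed_co.Helper
import Pool.Agent.Lib.MP_1818ed_co.Arith
import Pool.Agent.Lib.MP_1818ed_co.Blow
import Pool.Agent.Lib.MP_1818ed_co.Mat
import Pool.Agent.Lib.MP_1818ed_co.Place
import Pool.Agent.Lib.MP_1818ed_co.Reps
import Pool.Agent.Lib.MP_1818ed_co.Chunks
import Pool.Agent.Lib.MP_1818ed_co.Dense
import Pool.Agent.Lib.MP_1818ed_co.Orient
import Pool.Agent.Lib.MP_1818ed_co.BookDet
import Pool.Agent.Lib.MP_1818ed_co.BookRand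
import Pool.Agent.Lib.MP_1818ed_co.Vec
import Pool.Agent.Lib.MP_1818ed_co.Book
import Pool.Agent.Lib.MP_1818ed_co.GreedyProb
import Pool.Agent.Lib.MP_1818ed_co.C56.Tut
import Pool.Agent.Lib.MP_1818ed_co.C56.Bar
import Pool.Agent.Lib.MP_1818ed_co.C56.Hall
import Pool.Agent.Lib.MP_1818ed_co.C56.MatchCol
import Pool.Agent.Lib.MP_1818ed_co.C56.JoinCol
import Pool.Agent.Lib.MP_1818ed_co.C56.Gallai
import Pool.Agent.Lib.MP_1818ed_co.C56.Decomp
import Pool.Agent.Lib.MP_1818ed_co.C56.CovDet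
import Pool.Agent.Lib.MP_1818ed_co.C56.CovMom
import Pool.Agent.Lib.MP_1818ed_co.C56.CovNum
import Pool.Agent.Lib.MP_1818ed_co.C56.Cov
import Pool.Agent.Lib.MP_1818ed_co.C56.Bk2Det
import Pool.Agent.Lib.MP_1818ed_co.C56.Bk2Rand
import Pool.Agent.Lib.MP_1818ed_co.C56.Bk2
import Pool.Agent.Lib.MP_1818ed_co.C56.NumF
import Pool.Agent.Lib.MP_1818ed_co.C56.Exp
import Pool.Agent.Lib.MP_1818ed_co.C56.NumB
import Pool.Agent.Lib.MP_1818ed_co.C56.NumD
import Pool.Agent.Lib.MP_1818ed_co.C56.WinJ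
import Pool.Agent.Lib.MP_1818ed_co.C56.MainJ

/-!
# Chromatic number and hat guessing number

There is `n₀` such that every finite graph `G` on `n ≥ n₀` vertices with `χ(G) ≥ (14/25) n` has a
winning strategy with `χ(G)` colours, i.e. `χ(G) ≤ HG(G)`.
-/

set_option autoImplicit false

namespace Pool.Agent.Results.MP_1818ed_co.Chi56

open Pool.Agent.Lib.MP_1818ed_co

theorem result :
    ∃ n₀ : ℕ, ∀ (V : Type) [Fintype V] (G : SimpleGraph V) (χ : ℕ),
      n₀ ≤ Fintype.card V → G.chromaticNumber = (χ : ℕ∞) → 14 * Fintype.card V ≤ 25 * χ →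
      ∃ f : V → (V → Fin χ) → Fin χ,
        (∀ (v : V) (c c' : V → Fin χ), (∀ u : V, G.Adj v u → c u = c' u) → f v c = f v c') ∧
        ∀ c : V → Fin χ, ∃ v : V, f v c = c v := by
  have hdense : DenseStmt := dense colors graph blow mat place reps chunks arith
  have hgal : GallaiStmt := gallai (bar tut) hall matchCol joinCol
  have hdec : DecompStmt := decomp hgal
  have hcov : CovStmt := cov covDet covMom covNum greedyProb
  have hbook : BookStmt := book (bookDet orient) bookRand vec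
  have hbk2 : Bk2Stmt := bk2 (bk2Det orient) bk2Rand vec
  have hwin : WinJStmt := winJ graph helper hbook hcov hbk2 numF (numB expB) (numD expB)
  have hmain : MainJStmt := mainJ colors graph helper hdec hwin (winA colors graph hdense) numE
  obtain ⟨q₀, hq⟩ := hmain
  refine ⟨2 * (q₀ + 1), ?_⟩
  intro V _ G χ hn hχ hor
  have h1 : 1 ≤ χ := by omega
  have hcol : G.Colorable χ := by
    rw [← SimpleGraph.chromaticNumber_le_iff_colorable, hχ]
  have hncol : ¬ G.Colorable (χ - 1) := by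
    intro h
    rw [← SimpleGraph.chromaticNumber_le_iff_colorable, hχ] at h
    have h2 : χ ≤ χ - 1 := by exact_mod_cast h
    omega
  exact hq V G χ (by omega) hcol hncol (Or.inl hor)

end Pool.Agent.Results.MP_1818ed_co.Chi56
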