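import Mathlib
import Pool.Agent.Lib.MP_1818ed_co.HatG.Main

/-!
# Graphs of large girth: chromatic number and hat guessing number

For every `g` there is `T` such that for every `N` there is a graph `G` of girth at least `g` with
`N ≤ χ(G) ≤ q ^ T`, all degrees less than `q ^ T`, and a winning strategy with `q ≥ N` colours.
So graphs of arbitrarily large girth have unbounded hat guessing number.

Proof: linear strategies. If the matrix `M` over a field with `Q` elements has ones on the diagonal, is
supported on the edges and has rank `R` with `Q ^ R (1 - 1 / Q) ^ |V| < 1`, then some shift `b` makes the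
strategy `v is right iff (M c) v = b v` winning. The vertices are points of `F ^ (d + 1)`, `F` the field
with `p ^ h` elements, `M x y = 1` iff `y` lies on a chosen line through `x`. Every such matrix has
rank at most `(p ^ (d + 1) - 1) ^ h` if `d + 1 ≤ p`, because the monomials with a zero digit are
orthogonal to all lines. For random directions there are few short cycles.
-/

set_option autoImplicit false

namespace Pool.Agent.Results.MP_1818ed_co.LargeGirth

theorem result :
    ∀ g : ℕ, ∃ T : ℕ, ∀ N : ℕ, ∃ (V : Type) (_ : Fintype V) (G : SimpleGraph V) (q : ℕ),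
      (g : ℕ∞) ≤ G.egirth ∧ (N : ℕ∞) ≤ G.chromaticNumber ∧ N ≤ q ∧
      (∀ v : V, (G.neighborSet v).ncard < q ^ T) ∧ G.Colorable (q ^ T) ∧
      ∃ f : V → (V → Fin q) → Fin q,
        (∀ (v : V) (c c' : V → Fin q), (∀ u : V, G.Adj v u → c u = c' u) → f v c = f v c') ∧
        ∀ c : V → Fin q, ∃ v : V, f v c = c v :=
  Pool.Agent.Lib.MP_1818ed_co.HatG.large_girth

end Pool.Agent.Results.MP_1818ed_co.LargeGirth
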